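import Pool.Agent.Y7.EJ.Stm

/-!
# EJ-LIMT: the modes have limits at the blow-up time
-/

open Set Filter Topology MeasureTheory Metric

set_option autoImplicit false

namespace Pool.Agent.Y344.EJ.Limt

open Pool.Agent.Y5 (E3)
open Pool.Agent.Y5.D (Ix qd vf3 Init)
open Pool.Agent.Y6.N (lin TSol XSol Rot)
open Pool.Agent.Y6.K (Kz lv)
open Pool.Agent.Y303.SK
open Pool.Agent.Y7.EJ

variable {J : Type} {g o : J → ℕ} {σ : J → J} {τ : J → ℝ} {L C ℓ ρ S : ℕ → ℝ}
  {B : ℕ → ℕ → ℝ} {R E : Ix J → ℝ} {D : Ix J → Ix J → ℝ} {c : Ix J → Ix J → Ix J → ℝ}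

/-- as in `Y303.SK.Blow` -/
lemma c_le (K : KD g L C ℓ ρ B R E D c) (i a b : Ix J) : |c i a b| ≤ R i := by
  classical
  have h := K.bil i {a, b} (fun x => if x = a then 1 else 0) (fun x => if x = b then 1 else 0)
  have e1 : ∑ x ∈ ({a, b} : Finset (Ix J)), ∑ y ∈ ({a, b} : Finset (Ix J)),
      c i x y * (if x = a then (1 : ℝ) else 0) * (if y = b then 1 else 0) = c i a b := by
    rw [Finset.sum_eq_single a, Finset.sum_eq_single b]
    · simp
    · intro y _ hy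
      simp [hy]
    · intro h; simp at h
    · intro x _ hx
      simp [hx]
    · intro h; simp at h
  have e2 : ∑ x ∈ ({a, b} : Finset (Ix J)), (if x = a then (1 : ℝ) else 0) ^ 2 = 1 := by
    rw [Finset.sum_eq_single a]
    · simp
    · intro y _ hy
      simp [hy]
    · intro h; simp at h
  have e3 : ∑ x ∈ ({a, b} : Finset (Ix J)), (if x = b then (1 : ℝ) else 0) ^ 2 = 1 := by
    rw [Finset.sum_eq_single b]
    · simp
    · intro y _ hy
      simp [hy]
    · intro h; simp at h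
  rw [e1, e2, e3] at h
  simpa using h

/-- as in `Y303.SK.Blow` -/
lemma c_sum' (K : KD g L C ℓ ρ B R E D c) {z : Ix J → ℝ} (h : Summable (fun a => |z a|))
    (i : Ix J) : Summable (fun p : Ix J × Ix J => c i p.1 p.2 * z p.1 * z p.2) := by
  have h1 : Summable (fun p : Ix J × Ix J => |z p.1| * |z p.2|) :=
    h.mul_of_nonneg h (fun _ => abs_nonneg _) (fun _ => abs_nonneg _)
  refine Summable.of_norm_bounded (h1.mul_left (R i)) fun p => ?_
  rw [Real.norm_eq_abs, abs_mul, abs_mul, mul_assoc]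
  exact mul_le_mul_of_nonneg_right (c_le K i p.1 p.2) (mul_nonneg (abs_nonneg _) (abs_nonneg _))

lemma sqrt_le {z : Ix J → ℝ} (h1 : Summable (fun a => z a ^ 2)) (h2 : ∑' a, z a ^ 2 ≤ 1)
    (s : Finset (Ix J)) : √(∑ a ∈ s, z a ^ 2) ≤ 1 := by
  have h3 : ∑ a ∈ s, z a ^ 2 ≤ 1 := le_trans (h1.sum_le_tsum s fun a _ => sq_nonneg _) h2
  calc √(∑ a ∈ s, z a ^ 2) ≤ √1 := Real.sqrt_le_sqrt h3
    _ = 1 := Real.sqrt_one

lemma z_le {z : Ix J → ℝ} (h1 : Summable (fun a => z a ^ 2)) (h2 : ∑' a, z a ^ 2 ≤ 1)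
    (a : Ix J) : |z a| ≤ 1 := by
  have h3 : z a ^ 2 ≤ 1 := le_trans (h1.le_tsum a fun b _ => sq_nonneg _) h2
  exact (sq_le_one_iff_abs_le_one (z a)).1 h3

lemma lin_le (K : KD g L C ℓ ρ B R E D c) {z : Ix J → ℝ} (h1 : Summable (fun a => z a ^ 2))
    (h2 : ∑' a, z a ^ 2 ≤ 1) (i : Ix J) : |lin D z i| ≤ |E i| := by
  unfold Pool.Agent.Y6.N.lin
  by_cases h : Summable fun b => D i b * z b
  · have h3 : Tendsto (fun s : Finset (Ix J) => |∑ b ∈ s, D i b * z b|) atTop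
        (𝓝 |∑' b, D i b * z b|) := (continuous_abs.tendsto _).comp h.hasSum
    refine le_of_tendsto' h3 fun s => ?_
    refine le_trans (K.dlin i s z) ?_
    calc E i * √(∑ b ∈ s, z b ^ 2) ≤ |E i| * √(∑ b ∈ s, z b ^ 2) :=
          mul_le_mul_of_nonneg_right (le_abs_self _) (Real.sqrt_nonneg _)
      _ ≤ |E i| * 1 := mul_le_mul_of_nonneg_left (sqrt_le h1 h2 s) (abs_nonneg _)
      _ = |E i| := mul_one _
  · rw [tsum_eq_zero_of_not_summable h, abs_zero]
    exact abs_nonneg _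

lemma qd_le (K : KD g L C ℓ ρ B R E D c) {z : Ix J → ℝ} (h1 : Summable (fun a => z a ^ 2))
    (h2 : ∑' a, z a ^ 2 ≤ 1) (h3 : Summable fun a => |z a|) (i : Ix J) :
    |qd c z i| ≤ |R i| := by
  unfold Pool.Agent.Y5.D.qd
  have h := c_sum' K h3 i
  have h4 : Tendsto (fun s : Finset (Ix J) => s ×ˢ s) atTop atTop :=
    tendsto_finset_prod_atTop.comp tendsto_atTop_diagonal
  have h5 : Tendsto (fun s : Finset (Ix J) =>
      |∑ p ∈ s ×ˢ s, c i p.1 p.2 * z p.1 * z p.2|) atTop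
      (𝓝 |∑' p : Ix J × Ix J, c i p.1 p.2 * z p.1 * z p.2|) :=
    (continuous_abs.tendsto _).comp (Tendsto.comp (g := fun s : Finset (Ix J × Ix J) =>
      ∑ p ∈ s, c i p.1 p.2 * z p.1 * z p.2) h.hasSum h4)
  refine le_of_tendsto' h5 fun s => ?_
  rw [Finset.sum_product]
  refine le_trans (K.bil i s z z) ?_
  have h6 := sqrt_le h1 h2 s
  have h7 := Real.sqrt_nonneg (∑ a ∈ s, z a ^ 2)
  calc R i * (√(∑ a ∈ s, z a ^ 2) * √(∑ a ∈ s, z a ^ 2))
      ≤ |R i| * (√(∑ a ∈ s, z a ^ 2) * √(∑ a ∈ s, z a ^ 2)) :=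
        mul_le_mul_of_nonneg_right (le_abs_self _) (mul_nonneg h7 h7)
    _ ≤ |R i| * (1 * 1) := mul_le_mul_of_nonneg_left (mul_le_mul h6 h6 h7 zero_le_one)
        (abs_nonneg _)
    _ = |R i| := by ring

lemma Kz_le (Rt : Rot o σ τ) (i : Ix J) : ∃ X : ℝ, ∀ z : Ix J → ℝ, (∀ a, |z a| ≤ 1) →
    |Kz S o σ τ z i| ≤ X := by
  cases i with
  | inl n =>
    refine ⟨0, fun z _ => ?_⟩
    simp only [Kz, abs_zero, le_refl]
  | inr j =>
    refine ⟨|S (o j)|, fun z hz => ?_⟩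
    simp only [Kz]
    have h1 : |τ j| = 1 := by
      have h2 := Rt.unit j
      have h3 : |τ j| ^ 2 = 1 := by rw [sq_abs]; exact h2
      exact (pow_eq_one_iff_of_nonneg (abs_nonneg _) two_ne_zero).1 h3
    rw [abs_mul, abs_mul, h1, mul_one]
    calc |S (o j)| * |z (Sum.inr (σ j))| ≤ |S (o j)| * 1 :=
          mul_le_mul_of_nonneg_left (hz _) (abs_nonneg _)
      _ = |S (o j)| := mul_one _

theorem t_LIMT : Pool.Agent.Y7.EJ.S_LIMT := by
  intro J g o σ τ L C ℓ ρ B R E D c β S T δ z K Rt hT sol hsum i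
  obtain ⟨X, hX⟩ := Kz_le (S := S) Rt i
  have hX0 : 0 ≤ X := le_trans (abs_nonneg _) (hX 0 fun a => by simp)
  have hM0 : 0 ≤ X + |E i| + |R i| := by positivity
  have hbd : ∀ t ∈ Ico 0 T, ‖Kz S o σ τ (fun a => z a t) i - lin D (fun a => z a t) i +
      qd c (fun a => z a t) i‖ ≤ X + |E i| + |R i| := by
    intro t ht
    obtain ⟨h1, h2⟩ := sol.en t ht
    have k1 := hX (fun a => z a t) (fun a => z_le (z := fun a => z a t) h1 h2 a)
    have k2 := lin_le K (z := fun a => z a t) h1 h2 i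
    have k3 := qd_le K (z := fun a => z a t) h1 h2 (hsum t ht) i
    rw [Real.norm_eq_abs]
    calc |Kz S o σ τ (fun a => z a t) i - lin D (fun a => z a t) i + qd c (fun a => z a t) i|
        ≤ |Kz S o σ τ (fun a => z a t) i - lin D (fun a => z a t) i| +
          |qd c (fun a => z a t) i| := abs_add_le _ _
      _ ≤ |Kz S o σ τ (fun a => z a t) i| + |lin D (fun a => z a t) i| +
          |qd c (fun a => z a t) i| := by
          gcongr
          exact abs_sub _ _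
      _ ≤ X + |E i| + |R i| := by gcongr
  have hlip : LipschitzOnWith ⟨X + |E i| + |R i|, hM0⟩ (z i) (Ico 0 T) := by
    refine LipschitzOnWith.of_dist_le_mul fun x hx y hy => ?_
    have h := Convex.norm_image_sub_le_of_norm_hasDerivWithin_le (f := z i)
      (fun t ht => sol.deriv i t ht) hbd (convex_Ico 0 T) hx hy
    rw [dist_comm, dist_comm x y, dist_eq_norm, dist_eq_norm]
    exact h
  obtain ⟨G, hG, hGe⟩ := hlip.extend_real
  refine ⟨G T, ?_⟩
  have h1 : Tendsto G (𝓝[<] T) (𝓝 (G T)) := hG.continuous.continuousAt.tendsto.mono_left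
    nhdsWithin_le_nhds
  refine h1.congr' ?_
  filter_upwards [Ico_mem_nhdsLT hT] with t ht
  exact (hGe ht).symm

end Pool.Agent.Y344.EJ.Limt
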